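import Pool.Agent.GameMem200.Loop

/-!
# MP_def589_lc : a winning condition that does not depend on finite initial words, with finite
general memory and infinite chromatic memory
-/

open Pool.Agent.GameMem200

namespace Pool.Agent.Results.MP_def589_lc.PrefixIndependent

theorem result : ∃ (C : Type) (W : Set (ℕ → C)), Nat.card C = 5 ∧ ShiftInvariant W ∧
    GenMemLE W 3 ∧ ∀ k : ℕ, ¬ ChrMemLE W k := by
  obtain ⟨S, hS⟩ := exists_window
  exact ⟨Col5, W5 S, by simp [Col5, Nat.card_eq_fintype_card], shiftInvariant_W5 S, genMem_W5 S,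
    chrMem_W5 hS⟩

end Pool.Agent.Results.MP_def589_lc.PrefixIndependent
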